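import Pool.Agent.Q80.NA.Stm

/-! Job NA-CLU. -/

set_option autoImplicit false

namespace Pool.Agent.Q247.NA

open Filter Topology Pool.Agent.Q80.NA

/-- fractional parts of the clusters -/
private theorem fract_val (h : J_SEQ) (n w j : ℕ) (hw : j * 2 ^ u n ≤ 2 ^ w) (hlarge : w + 1 ≤ u (n + 1)) :
    0 ≤ Int.fract ((((j * 2 ^ u n : ℕ) : ℕ) : ℝ) ^ 2 * α₀) ∧
      Int.fract ((((j * 2 ^ u n : ℕ) : ℕ) : ℝ) ^ 2 * α₀) ≤ (4 : ℝ) ^ w * (2 / (4 : ℝ) ^ u (n + 1)) := by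
  obtain ⟨h5, h6⟩ := h.2.2 n
  set η := α₀ - (num n : ℝ) / (4 : ℝ) ^ u n with hη
  have hη0 : 0 ≤ η := le_trans (by positivity) h5
  have e1 : (((j * 2 ^ u n : ℕ) : ℕ) : ℝ) ^ 2 * α₀ = ((j ^ 2 * num n : ℕ) : ℝ) + (((j * 2 ^ u n : ℕ) : ℕ) : ℝ) ^ 2 * η := by
    rw [hη]
    push_cast
    have : ((2 : ℝ) ^ u n) ^ 2 = (4 : ℝ) ^ u n := by rw [← pow_mul, mul_comm, pow_mul]; norm_num
    rw [mul_pow, this]
    field_simp
    ring
  have e2 : (((j * 2 ^ u n : ℕ) : ℕ) : ℝ) ^ 2 ≤ (4 : ℝ) ^ w := by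
    have h7 : (j * 2 ^ u n) ^ 2 ≤ 4 ^ w := by
      calc (j * 2 ^ u n) ^ 2 ≤ (2 ^ w) ^ 2 := Nat.pow_le_pow_left hw 2
        _ = 4 ^ w := by rw [← pow_mul, mul_comm, pow_mul]; norm_num
    exact_mod_cast h7
  have e3 : (((j * 2 ^ u n : ℕ) : ℕ) : ℝ) ^ 2 * η ≤ (4 : ℝ) ^ w * (2 / (4 : ℝ) ^ u (n + 1)) :=
    mul_le_mul e2 h6 hη0 (by positivity)
  have e4 : (4 : ℝ) ^ w * (2 / (4 : ℝ) ^ u (n + 1)) < 1 := by
    rw [mul_div_assoc', div_lt_one (by positivity)]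
    have h7 : (4 : ℝ) ^ (w + 1) ≤ (4 : ℝ) ^ u (n + 1) := pow_le_pow_right₀ (by norm_num) hlarge
    have h8 : (0 : ℝ) < 4 ^ w := by positivity
    rw [pow_succ] at h7
    linarith
  have e5 : Int.fract ((((j * 2 ^ u n : ℕ) : ℕ) : ℝ) ^ 2 * α₀) = (((j * 2 ^ u n : ℕ) : ℕ) : ℝ) ^ 2 * η := by
    rw [e1, Int.fract_natCast_add, Int.fract_eq_self]
    exact ⟨by positivity, e3.trans_lt e4⟩
  rw [e5]
  exact ⟨by positivity, e3⟩

private theorem summ {l : ℕ} {f : (Fin l → ℝ) → ℝ} (hc : HasCompactSupport f) (N : ℕ) (hN : 1 ≤ N)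
    (v : Fin l → ℝ) : Summable fun m : Fin l → ℤ => f (fun i => (N : ℝ) * (v i + (m i : ℝ))) := by
  obtain ⟨ρ, hρ⟩ := hc.isCompact.isBounded.subset_closedBall (0 : Fin l → ℝ)
  obtain ⟨K, hK⟩ := exists_nat_gt (|ρ| + ‖v‖)
  apply summable_of_ne_finset_zero (s := Fintype.piFinset fun _ : Fin l => Finset.Icc (-(K : ℤ)) K)
  intro m hm
  by_contra hne
  apply hm
  have h1 : (fun i => (N : ℝ) * (v i + (m i : ℝ))) ∈ Metric.closedBall (0 : Fin l → ℝ) ρ :=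
    hρ (subset_tsupport _ hne)
  rw [mem_closedBall_zero_iff] at h1
  rw [Fintype.mem_piFinset]
  intro i
  have h2 := (norm_le_pi_norm (fun i => (N : ℝ) * (v i + (m i : ℝ))) i).trans h1
  have hNR : (1 : ℝ) ≤ N := by exact_mod_cast hN
  simp only [Real.norm_eq_abs, abs_mul, Nat.abs_cast] at h2
  have h3 : |v i + (m i : ℝ)| ≤ ρ := by
    have := abs_nonneg (v i + (m i : ℝ))
    nlinarith
  have h4 := norm_le_pi_norm v i
  rw [Real.norm_eq_abs] at h4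
  have h5 : |(m i : ℝ)| < K := by
    have h6 : (m i : ℝ) = (v i + m i) - v i := by ring
    have h7 := abs_sub (v i + (m i : ℝ)) (v i)
    rw [← h6] at h7
    have := le_abs_self ρ
    linarith
  rw [Finset.mem_Icc]
  rw [abs_lt] at h5
  constructor
  · have : (-(K : ℤ) : ℝ) < (m i : ℝ) := by push_cast; exact h5.1
    exact_mod_cast this.le
  · exact_mod_cast h5.2.le

theorem t_CLU : J_CLU := by
  intro h l hl f hf hc hpos hf0 hB
  obtain ⟨Bd, hBd⟩ := hB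
  -- continuity at zero
  obtain ⟨δ, hδ, hδf⟩ : ∃ δ > 0, ∀ y : Fin l → ℝ, ‖y‖ < δ → f 0 / 2 ≤ f y := by
    have h1 := (Metric.continuous_iff.1 hf) 0 (f 0 / 2) (by linarith)
    obtain ⟨δ, hδ, h2⟩ := h1
    refine ⟨δ, hδ, fun y hy => ?_⟩
    have h3 := h2 y (by rwa [dist_zero_right])
    rw [Real.dist_eq, abs_lt] at h3
    linarith [h3.1]
  -- the choice of n
  have hlim1 : ∃ a : ℕ, (2 : ℝ) / (2 : ℝ) ^ a < δ := by
    obtain ⟨a, ha⟩ := pow_unbounded_of_one_lt (2 / δ) (one_lt_two)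
    refine ⟨a, ?_⟩
    rw [div_lt_iff₀ (by positivity)]
    rw [div_lt_iff₀ hδ] at ha
    linarith
  obtain ⟨a, ha⟩ := hlim1
  obtain ⟨b, hb⟩ := pow_unbounded_of_one_lt (|Bd| * (2 * (l + 1 : ℝ)) ^ 3 / (f 0 / 2)) (one_lt_two (α := ℝ))
  obtain ⟨c, hcc⟩ := pow_unbounded_of_one_lt (2 * (l + 1 : ℝ)) (one_lt_two (α := ℝ))
  set n := 20 * (a + b + c + 3) with hn
  obtain ⟨h1, h2, h3, h4⟩ := h.1 n
  set s := u n with hs
  set w := 31 * s / 20 with hw
  have hsn : 20 * (a + b + c + 3) + 5 ≤ s := by rw [← hn]; exact h3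
  have hw1 : 20 * w ≤ 31 * s := Nat.mul_div_le _ _
  have hw2 : 31 * s < 20 * w + 20 := by
    have := Nat.lt_mul_div_succ (31 * s) (show 0 < 20 by norm_num)
    rw [← hw] at this
    linarith
  have hws : s + c ≤ w := by omega
  have hwu : w + 1 ≤ u (n + 1) := by omega
  have hexp : 3 * w + a ≤ 2 * u (n + 1) := by omega
  have hexp2 : 3 * s + b ≤ 2 * w := by omega
  set N := 2 ^ w with hN
  have hN1 : 1 ≤ N := Nat.one_le_two_pow
  have hNR : (0 : ℝ) < N := by exact_mod_cast hN1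
  set M := 2 ^ (w - s) with hM
  have hMN : M * 2 ^ s = N := by rw [hM, hN, ← pow_add]; congr 1; omega
  set Bk := M / (l + 1) with hBk
  -- the tuples
  classical
  let P : Finset (Fin (l + 1) → ℕ) := Fintype.piFinset fun i : Fin (l + 1) => Finset.Icc (i * Bk + 1) ((i + 1) * Bk)
  let φ : (Fin (l + 1) → ℕ) → (Fin (l + 1) → ℕ) := fun j i => j i * 2 ^ s
  have hφ : Function.Injective φ := by
    intro j j' hj
    funext i
    have := congrFun hj i
    exact Nat.eq_of_mul_eq_mul_right (by positivity) this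
  have hPle : ∀ j ∈ P, ∀ i, 1 ≤ j i ∧ j i ≤ M := by
    intro j hj i
    have h5 := (Fintype.mem_piFinset.1 hj) i
    rw [Finset.mem_Icc] at h5
    refine ⟨by omega, h5.2.trans ?_⟩
    calc ((i : ℕ) + 1) * Bk ≤ (l + 1) * Bk := Nat.mul_le_mul_right _ (by have := i.2; omega)
      _ ≤ M := Nat.mul_div_le _ _
  have hPinj : ∀ j ∈ P, Function.Injective j := by
    intro j hj i i' hii
    have h5 := (Fintype.mem_piFinset.1 hj) i
    have h6 := (Fintype.mem_piFinset.1 hj) i'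
    rw [Finset.mem_Icc] at h5 h6
    by_contra hne
    rcases lt_or_gt_of_ne hne with h7 | h7
    · have h8 : (i : ℕ) + 1 ≤ i' := h7
      have h9 : ((i : ℕ) + 1) * Bk ≤ i' * Bk := Nat.mul_le_mul_right _ h8
      omega
    · have h8 : (i' : ℕ) + 1 ≤ i := h7
      have h9 : ((i' : ℕ) + 1) * Bk ≤ i * Bk := Nat.mul_le_mul_right _ h8
      omega
  have hPcard : P.card = Bk ^ (l + 1) := by
    rw [Fintype.card_piFinset]
    rw [Finset.prod_congr rfl (g := fun _ => Bk)]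
    · simp
    · intro i _
      have : ((i : ℕ) + 1) * Bk = i * Bk + Bk := by ring
      rw [Nat.card_Icc, this, Nat.add_sub_add_right, Nat.add_sub_cancel_left]
  -- terms
  set T : (Fin (l + 1) → ℕ) → ℝ := fun n => ∑' m : Fin l → ℤ, f (fun i => (N : ℝ) *
        (Int.fract (((n i.castSucc : ℕ) : ℝ) ^ 2 * α₀) - Int.fract (((n i.succ : ℕ) : ℝ) ^ 2 * α₀)
          + (m i : ℝ))) with hT
  have hT0 : ∀ x, 0 ≤ T x := fun x => tsum_nonneg fun m => hpos _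
  have hTP : ∀ j ∈ P, f 0 / 2 ≤ T (φ j) := by
    intro j hj
    have hb1 : ∀ i, 0 ≤ Int.fract (((φ j i : ℕ) : ℝ) ^ 2 * α₀) ∧
        Int.fract (((φ j i : ℕ) : ℝ) ^ 2 * α₀) ≤ (4 : ℝ) ^ w * (2 / (4 : ℝ) ^ u (n + 1)) := by
      intro i
      apply fract_val h n w (j i) _ hwu
      have := (hPle j hj i).2
      calc j i * 2 ^ u n ≤ M * 2 ^ s := Nat.mul_le_mul_right _ this
        _ = 2 ^ w := hMN
    have hsum := summ hc N hN1 (fun i => Int.fract (((φ j i.castSucc : ℕ) : ℝ) ^ 2 * α₀) -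
      Int.fract (((φ j i.succ : ℕ) : ℝ) ^ 2 * α₀))
    have h5 := hsum.le_tsum 0 (fun m _ => hpos _)
    refine le_trans ?_ h5
    apply hδf
    refine lt_of_le_of_lt ?_ ha
    rw [pi_norm_le_iff_of_nonneg (by positivity)]
    intro i
    obtain ⟨c1, c2⟩ := hb1 i.castSucc
    obtain ⟨c3, c4⟩ := hb1 i.succ
    rw [Real.norm_eq_abs, abs_mul, abs_of_pos hNR]
    have h6 : |Int.fract (((φ j i.castSucc : ℕ) : ℝ) ^ 2 * α₀) - Int.fract (((φ j i.succ : ℕ) : ℝ) ^ 2 * α₀) +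
        (((0 : Fin l → ℤ) i : ℤ) : ℝ)| ≤ (4 : ℝ) ^ w * (2 / (4 : ℝ) ^ u (n + 1)) := by
      rw [Pi.zero_apply, Int.cast_zero, add_zero, abs_le]
      constructor <;> linarith
    refine (mul_le_mul_of_nonneg_left h6 hNR.le).trans ?_
    rw [hN]
    push_cast
    rw [show (4 : ℝ) = 2 ^ 2 by norm_num, ← pow_mul, ← pow_mul, mul_div_assoc', mul_div_assoc',
      div_le_div_iff₀ (by positivity) (by positivity)]
    calc (2 : ℝ) ^ w * (2 ^ (2 * w) * 2) * 2 ^ a = 2 * 2 ^ (3 * w + a) := by ring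
      _ ≤ 2 * 2 ^ (2 * u (n + 1)) := by
          apply mul_le_mul_of_nonneg_left (pow_le_pow_right₀ (by norm_num) hexp) (by norm_num)
  -- lower bound of R
  have hR : (1 / (N : ℝ)) * ((P.card : ℝ) * (f 0 / 2)) ≤ R α₀ l f N := by
    unfold R
    apply mul_le_mul_of_nonneg_left _ (by positivity)
    calc (P.card : ℝ) * (f 0 / 2) = ∑ j ∈ P, f 0 / 2 := by rw [Finset.sum_const, nsmul_eq_mul]
      _ ≤ ∑ j ∈ P, T (φ j) := Finset.sum_le_sum hTP
      _ = ∑ x ∈ P.image φ, T x := (Finset.sum_image fun x _ y _ hxy => hφ hxy).symm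
      _ ≤ _ := by
          apply Finset.sum_le_sum_of_subset_of_nonneg
          · intro x hx
            obtain ⟨j, hj, rfl⟩ := Finset.mem_image.1 hx
            rw [Finset.mem_filter, Fintype.mem_piFinset]
            refine ⟨fun i => ?_, fun i i' hii => hPinj j hj (Nat.eq_of_mul_eq_mul_right (by positivity) hii)⟩
            rw [Finset.mem_Icc]
            obtain ⟨c1, c2⟩ := hPle j hj i
            constructor
            · show 1 ≤ j i * 2 ^ s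
              have : 1 ≤ 2 ^ s := Nat.one_le_two_pow
              nlinarith
            · show j i * 2 ^ s ≤ N
              rw [← hMN]
              exact Nat.mul_le_mul_right _ c2
          · intro x _ _
            exact hT0 x
  have hub := hBd ⟨N, rfl⟩
  have hMR : (2 : ℝ) ^ c ≤ M := by
    rw [hM]
    push_cast
    exact pow_le_pow_right₀ (by norm_num) (by omega)
  have hBkR : (M : ℝ) / (2 * (l + 1)) ≤ Bk := by
    have h5 : M < (l + 1) * (Bk + 1) := by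
      rw [hBk]
      exact Nat.lt_mul_div_succ M (Nat.succ_pos l)
    have h6 : (M : ℝ) < (l + 1) * (Bk + 1) := by exact_mod_cast h5
    rw [div_le_iff₀ (by positivity)]
    nlinarith
  have hBk1 : (1 : ℝ) ≤ Bk := by
    refine le_trans ?_ hBkR
    rw [le_div_iff₀ (by positivity), one_mul]
    linarith
  have h5 : ((M : ℝ) / (2 * (l + 1))) ^ 3 ≤ (P.card : ℝ) := by
    rw [hPcard]
    push_cast
    calc ((M : ℝ) / (2 * (l + 1))) ^ 3 ≤ (Bk : ℝ) ^ 3 := pow_le_pow_left₀ (by positivity) hBkR 3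
      _ ≤ (Bk : ℝ) ^ (l + 1) := pow_le_pow_right₀ hBk1 (by omega)
  have h6 : (N : ℝ) * 2 ^ b ≤ (M : ℝ) ^ 3 := by
    rw [hN, hM]
    push_cast
    rw [← pow_add, ← pow_mul]
    exact pow_le_pow_right₀ (by norm_num) (by omega)
  have h7 : (1 / (N : ℝ)) * (((M : ℝ) / (2 * (l + 1))) ^ 3 * (f 0 / 2)) ≤ Bd :=
    (mul_le_mul_of_nonneg_left (mul_le_mul_of_nonneg_right h5 (by linarith)) (by positivity)).trans (hR.trans hub)
  rw [div_lt_iff₀ (by linarith)] at hb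
  have h8 : (M : ℝ) ^ 3 * (f 0 / 2) ≤ Bd * (N * (2 * (l + 1)) ^ 3) := by
    rw [div_pow, one_div, inv_mul_le_iff₀ hNR, div_mul_eq_mul_div, div_le_iff₀ (by positivity)] at h7
    linarith
  have h9 : (N : ℝ) * 2 ^ b * (f 0 / 2) ≤ Bd * (N * (2 * (l + 1)) ^ 3) :=
    (mul_le_mul_of_nonneg_right h6 (by linarith)).trans h8
  have h10 : (2 : ℝ) ^ b * (f 0 / 2) ≤ Bd * (2 * (l + 1)) ^ 3 := by
    have : (N : ℝ) * (2 ^ b * (f 0 / 2)) ≤ N * (Bd * (2 * (l + 1)) ^ 3) := by linarith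
    exact le_of_mul_le_mul_left this hNR
  have h11 : Bd * (2 * (l + 1 : ℝ)) ^ 3 ≤ |Bd| * (2 * (l + 1 : ℝ)) ^ 3 :=
    mul_le_mul_of_nonneg_right (le_abs_self _) (by positivity)
  linarith

end Pool.Agent.Q247.NA
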