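import Pool.Agent.Q80.NA.Stm

/-! Job NA-TYP. -/

set_option autoImplicit false

namespace Pool.Agent.Q247.NA

open Pool.Agent.Q80.NA

private theorem ex_n (h : J_SEQ) (b : ℕ) : ∃ n, b * 4 < 4 ^ (u (n + 1) - u n) := by
  refine ⟨b + 1, ?_⟩
  obtain ⟨h1, -, h3, -⟩ := h.1 (b + 1)
  have h4 : b + 2 ≤ u (b + 1 + 1) - u (b + 1) := by omega
  calc b * 4 < 4 ^ b * 4 := by
        have : b < 4 ^ b := Nat.lt_pow_self (by norm_num)
        omega
    _ = 4 ^ (b + 1) := by ring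
    _ ≤ _ := Nat.pow_le_pow_right (by norm_num) (by omega)

private theorem upper (h : J_SEQ) {b n : ℕ} (hb : 1 ≤ b)
    (hmin : ∀ m, m < n → ¬ (b * 4 < 4 ^ (u (m + 1) - u m))) :
    (4 : ℝ) ^ u n ≤ 1024 * (b : ℝ) ^ (7 / 4 : ℝ) := by
  have hbR : (1 : ℝ) ≤ b := by exact_mod_cast hb
  have hb1 : (1 : ℝ) ≤ (b : ℝ) ^ (7 / 4 : ℝ) := Real.one_le_rpow hbR (by norm_num)
  rcases n with _ | m
  · have : u 0 = 5 := rfl
    rw [this]
    nlinarith
  · have h1 := not_lt.1 (hmin m (Nat.lt_succ_self m))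
    obtain ⟨h2, -, -, h5⟩ := h.1 m
    have h6 : 4 ^ (7 * u (m + 1)) ≤ (b * 4) ^ 12 := by
      calc 4 ^ (7 * u (m + 1)) ≤ 4 ^ (12 * (u (m + 1) - u m)) :=
            Nat.pow_le_pow_right (by norm_num) (by omega)
        _ = (4 ^ (u (m + 1) - u m)) ^ 12 := by rw [← pow_mul, mul_comm]
        _ ≤ _ := Nat.pow_le_pow_left h1 12
    have h7 : ((4 : ℝ) ^ u (m + 1)) ^ 7 ≤ ((b : ℝ) * 4) ^ 12 := by
      rw [← pow_mul, mul_comm]
      exact_mod_cast h6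
    set z : ℝ := (b : ℝ) * 4 with hz
    have hz1 : 1 ≤ z := by rw [hz]; linarith
    have h8 : z ^ 12 ≤ (z ^ (7 / 4 : ℝ)) ^ 7 := by
      rw [← Real.rpow_natCast (z ^ (7 / 4 : ℝ)) 7, ← Real.rpow_mul (by linarith), ← Real.rpow_natCast z 12]
      apply Real.rpow_le_rpow_of_exponent_le hz1
      norm_num
    have h9 : (4 : ℝ) ^ u (m + 1) ≤ z ^ (7 / 4 : ℝ) :=
      (pow_le_pow_iff_left₀ (by positivity) (by positivity) (by norm_num)).1 (h7.trans h8)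
    have h10 : z ^ (7 / 4 : ℝ) ≤ 1024 * (b : ℝ) ^ (7 / 4 : ℝ) := by
      rw [hz, Real.mul_rpow (by positivity) (by norm_num), mul_comm]
      apply mul_le_mul_of_nonneg_right _ (by positivity)
      calc (4 : ℝ) ^ (7 / 4 : ℝ) ≤ 4 ^ (5 : ℝ) :=
            Real.rpow_le_rpow_of_exponent_le (by norm_num) (by norm_num)
        _ = 1024 := by
            rw [show (5 : ℝ) = ((5 : ℕ) : ℝ) by norm_num, Real.rpow_natCast]
            norm_num
    exact h9.trans h10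

private theorem key (h : J_SEQ) (a : ℤ) (b : ℕ) (hb : 1 ≤ b) (hco : IsCoprime a (b : ℤ)) :
    1 / 2048 * (b : ℝ) ^ (-(11 / 4) : ℝ) ≤ |α₀ - (a : ℝ) / (b : ℝ)| := by
  have hbR : (1 : ℝ) ≤ b := by exact_mod_cast hb
  have hb0 : (0 : ℝ) < b := by linarith
  classical
  obtain ⟨hn, hmin⟩ : (b * 4 < 4 ^ (u (Nat.find (ex_n h b) + 1) - u (Nat.find (ex_n h b)))) ∧
      ∀ m, m < Nat.find (ex_n h b) → ¬ (b * 4 < 4 ^ (u (m + 1) - u m)) :=
    ⟨Nat.find_spec (ex_n h b), fun m hm => Nat.find_min (ex_n h b) hm⟩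
  set n := Nat.find (ex_n h b) with hndef
  have hup := upper h hb hmin
  obtain ⟨h1, h2, h3, h4⟩ := h.1 n
  have hco2 := h.2.1 n
  obtain ⟨h5, h6⟩ := h.2.2 n
  have hP : (0 : ℝ) < (4 : ℝ) ^ u n := by positivity
  by_cases heq : (a : ℝ) / b = (num n : ℝ) / (4 : ℝ) ^ u n
  · -- then b = 4 ^ u n
    have h7 : a * ((4 ^ u n : ℕ) : ℤ) = (num n : ℤ) * (b : ℤ) := by
      rw [div_eq_div_iff (by positivity) (by positivity)] at heq
      have : ((a * ((4 ^ u n : ℕ) : ℤ) : ℤ) : ℝ) = (((num n : ℤ) * (b : ℤ) : ℤ) : ℝ) := by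
        push_cast
        exact heq
      exact_mod_cast this
    have h8 : (b : ℤ) ∣ ((4 ^ u n : ℕ) : ℤ) :=
      hco.symm.dvd_of_dvd_mul_left ⟨(num n : ℤ), by rw [h7]; ring⟩
    have h9 : ((4 ^ u n : ℕ) : ℤ) ∣ (b : ℤ) :=
      hco2.symm.dvd_of_dvd_mul_left ⟨a, by rw [← h7]; ring⟩
    have h10 : b = 4 ^ u n := Nat.dvd_antisymm (Int.natCast_dvd_natCast.1 h8) (Int.natCast_dvd_natCast.1 h9)
    have h11 : (b : ℝ) = (4 : ℝ) ^ u n := by rw [h10]; push_cast; rfl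
    rw [heq]
    have h12 : (b : ℝ) ^ (-(11 / 4) : ℝ) ≤ 1 / (4 : ℝ) ^ u (n + 1) := by
      rw [h11, ← Real.rpow_natCast 4 (u n), ← Real.rpow_mul (by norm_num), one_div, ← Real.rpow_natCast 4 (u (n + 1)),
        ← Real.rpow_neg (by norm_num)]
      apply Real.rpow_le_rpow_of_exponent_le (by norm_num)
      have : (2 : ℝ) * u (n + 1) ≤ 5 * u n := by exact_mod_cast h2
      have h0 : (0 : ℝ) ≤ u n := Nat.cast_nonneg _
      nlinarith
    have h13 : 0 ≤ (b : ℝ) ^ (-(11 / 4) : ℝ) := by positivity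
    have h14 := le_abs_self (α₀ - (num n : ℝ) / (4 : ℝ) ^ u n)
    linarith
  · have h7 : 1 / ((b : ℝ) * (4 : ℝ) ^ u n) ≤ |(a : ℝ) / b - (num n : ℝ) / (4 : ℝ) ^ u n| := by
      rw [div_sub_div _ _ (by positivity) (by positivity), abs_div, abs_of_pos (by positivity : (0 : ℝ) < b * 4 ^ u n)]
      apply div_le_div_of_nonneg_right _ (by positivity)
      have h8 : a * ((4 ^ u n : ℕ) : ℤ) - (b : ℤ) * (num n : ℤ) ≠ 0 := by
        intro h9
        apply heq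
        rw [div_eq_div_iff (by positivity) (by positivity)]
        have h10 : (((a * ((4 ^ u n : ℕ) : ℤ) - (b : ℤ) * (num n : ℤ) : ℤ)) : ℝ) = 0 := by rw [h9]; simp
        push_cast at h10
        linarith
      have h9 : (1 : ℤ) ≤ |a * ((4 ^ u n : ℕ) : ℤ) - (b : ℤ) * (num n : ℤ)| := Int.one_le_abs h8
      have h10 : ((1 : ℤ) : ℝ) ≤ ((|a * ((4 ^ u n : ℕ) : ℤ) - (b : ℤ) * (num n : ℤ)| : ℤ) : ℝ) := by exact_mod_cast h9
      push_cast at h10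
      exact h10
    have h8 : (2 : ℝ) / (4 : ℝ) ^ u (n + 1) ≤ 1 / (2 * ((b : ℝ) * (4 : ℝ) ^ u n)) := by
      have h9 : b * 4 * 4 ^ u n ≤ 4 ^ u (n + 1) := by
        calc b * 4 * 4 ^ u n ≤ 4 ^ (u (n + 1) - u n) * 4 ^ u n := Nat.mul_le_mul_right _ hn.le
          _ = 4 ^ u (n + 1) := by rw [← pow_add]; congr 1; omega
      have h10 : (b : ℝ) * 4 * (4 : ℝ) ^ u n ≤ (4 : ℝ) ^ u (n + 1) := by exact_mod_cast h9
      rw [div_le_div_iff₀ (by positivity) (by positivity)]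
      linarith
    have h9 : 1 / (2 * ((b : ℝ) * (4 : ℝ) ^ u n)) ≤ |α₀ - (a : ℝ) / b| := by
      have h10 : |(a : ℝ) / b - (num n : ℝ) / (4 : ℝ) ^ u n| ≤ |α₀ - (a : ℝ) / b| + |α₀ - (num n : ℝ) / (4 : ℝ) ^ u n| := by
        have := abs_sub_abs_le_abs_sub (α₀ - (num n : ℝ) / (4 : ℝ) ^ u n) (α₀ - (a : ℝ) / b)
        have h11 : (a : ℝ) / b - (num n : ℝ) / (4 : ℝ) ^ u n =
            (α₀ - (num n : ℝ) / (4 : ℝ) ^ u n) - (α₀ - (a : ℝ) / b) := by ring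
        rw [h11]
        exact (abs_sub _ _).trans (by rw [add_comm])
      have h12 : |α₀ - (num n : ℝ) / (4 : ℝ) ^ u n| ≤ 2 / (4 : ℝ) ^ u (n + 1) := by
        rw [abs_of_nonneg (le_trans (by positivity) h5)]
        exact h6
      have h13 : 1 / ((b : ℝ) * (4 : ℝ) ^ u n) = 2 * (1 / (2 * ((b : ℝ) * (4 : ℝ) ^ u n))) := by
        field_simp
      linarith
    refine le_trans ?_ h9
    have h10 : (b : ℝ) ^ (-(11 / 4) : ℝ) = 1 / ((b : ℝ) * (b : ℝ) ^ (7 / 4 : ℝ)) := by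
      rw [Real.rpow_neg hb0.le, one_div]
      congr 1
      nth_rewrite 2 [← Real.rpow_one (b : ℝ)]
      rw [← Real.rpow_add hb0]
      norm_num
    rw [h10, one_div_mul_one_div]
    apply one_div_le_one_div_of_le (by positivity)
    have h11 := mul_le_mul_of_nonneg_left hup hb0.le
    linarith

theorem t_TYP : J_TYP := by
  intro h
  have hT : OfType (11 / 4) α₀ := ⟨1 / 2048, by norm_num, fun a q hq hco => key h a q hq hco⟩
  refine ⟨?_, hT⟩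
  rintro ⟨q, hq⟩
  have h1 := key h q.num q.den q.den_pos (Rat.isCoprime_num_den q)
  have h2 : (q.num : ℝ) / (q.den : ℝ) = (q : ℝ) := by
    exact_mod_cast Rat.num_div_den q
  rw [h2, hq, sub_self, abs_zero] at h1
  have h3 : 0 < (q.den : ℝ) ^ (-(11 / 4) : ℝ) := Real.rpow_pos_of_pos (by exact_mod_cast q.den_pos) _
  linarith

end Pool.Agent.Q247.NA
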